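import Pool.Agent.H77.GQ.Stm
import Pool.Agent.H69.GR.Ex2

/-!
# Project GQ: the dimension of the space of logarithmic fields of large degree (DMF)
-/

set_option autoImplicit false

open MvPolynomial Module Pool.Agent.H77.TF Pool.Agent.H77.GR Pool.Agent.H77.GQ

namespace Pool.Agent.H76.GQ

open Pool.Agent.H69.GR

theorem card_Ex (m : ℕ) : Fintype.card (Ex m) = (m + 2).choose 2 := by
  let es : Ex m ≃ Sym (Fin 3) m :=
    (Equiv.subtypeEquivRight (fun d => by
      show d.degree = m ↔ d.sum (fun _ => id) = m
      exact Iff.rfl)).trans (Sym.equivNatSum (Fin 3) m).symm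
  rw [Fintype.card_congr es, Sym.card_sym_eq_choose, Fintype.card_fin]
  have h1 : 3 + m - 1 = m + 2 := by omega
  rw [h1, Nat.choose_symm_add]

theorem dmf (hEX1 : S_EX1) : S_DMF := by
  intro K _ n
  induction n with
  | zero =>
    intro A _ m _
    rw [rank0, Fintype.card_prod, card_Ex, Fintype.card_fin]
    simp
  | succ n ih =>
    intro A hA m hm
    obtain ⟨h1, h2, h3⟩ := Simple.init hA
    have h4 := hEX1 K n (Fin.init A) (A (Fin.last n)) h1 h2 h3 m (by omega)
    rw [Fin.snoc_init_self] at h4
    have h5 := ih (Fin.init A) h1 m (by omega)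
    have h6 : hn A (Fin.last n) =
        Nat.card (Set.range fun i => Submodule.span K {A (Fin.last n), Fin.init A i}) := rfl
    have h7 : ∀ s : Fin n, hn A s.castSucc = hn (Fin.init A) s := fun s => rfl
    rw [Fin.sum_univ_castSucc, h6]
    simp only [h7, Fin.val_castSucc, Fin.val_last]
    zify at h4
    push_cast at h5 ⊢
    linarith

end Pool.Agent.H76.GQ
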