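import Pool.Agent.H77.GQ.Stm3

/-!
# Project GQ: a free arrangement of planes has the exponents `1, a, b` (EXO)
-/

set_option autoImplicit false

open MvPolynomial Module Pool.Agent.H77.TF Pool.Agent.H77.GQ

namespace Pool.Agent.H76.GQ

variable {K : Type} [Field K]

theorem lin_hom (a : Fin 3 → K) : (lin a).IsHomogeneous 1 := by
  refine IsHomogeneous.sum _ _ _ fun i _ => ?_
  simpa using (isHomogeneous_C (Fin 3) (a i)).mul (isHomogeneous_X K i)

theorem evl_hom {a : Fin 3 → K} {v : Fin 3 → MvPolynomial (Fin 3) K} {m : ℕ}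
    (h : ∀ s, (v s).IsHomogeneous m) : (evl a v).IsHomogeneous m := by
  refine IsHomogeneous.sum _ _ _ fun i _ => ?_
  simpa using (isHomogeneous_C (Fin 3) (a i)).mul (h i)

theorem hc_mul_zero {f h : MvPolynomial (Fin 3) K} {e m : ℕ} (hh : h.IsHomogeneous e) (hem : m < e) :
    homogeneousComponent m (f * h) = 0 := by
  rw [← sum_homogeneousComponent f, Finset.sum_mul, map_sum]
  refine Finset.sum_eq_zero fun i _ => ?_
  rw [homogeneousComponent_of_mem ((homogeneousComponent_isHomogeneous i f).mul hh),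
    if_neg (by omega)]

theorem hc_self {f : MvPolynomial (Fin 3) K} {m : ℕ} (h : f.IsHomogeneous m) :
    homogeneousComponent m f = f := by
  rw [homogeneousComponent_of_mem h, if_pos rfl]

theorem const_zero {a : Fin 3 → K} {h : MvPolynomial (Fin 3) K} (hh : h.IsHomogeneous 0)
    (hd : lin a ∣ h) : h = 0 := by
  obtain ⟨q, hq⟩ := hd
  rw [← hc_self hh, hq, mul_comm]
  exact hc_mul_zero (lin_hom a) one_pos

theorem lin_ne_zero {a : Fin 3 → K} (ha : a ≠ 0) : lin a ≠ 0 := by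
  intro h
  refine ha (funext fun j => ?_)
  have h1 := congrArg (MvPolynomial.eval (Pi.single j 1 : Fin 3 → K)) h
  simpa [lin, Pi.single_apply] using h1

theorem evl_sum (a : Fin 3 → K) (c : Fin 3 → MvPolynomial (Fin 3) K)
    (v : Fin 3 → Fin 3 → MvPolynomial (Fin 3) K) :
    evl a (∑ j, c j • v j) = ∑ j, c j * evl a (v j) := by
  simp only [evl, Finset.sum_apply, Pi.smul_apply, smul_eq_mul, Finset.mul_sum]
  rw [Finset.sum_comm]
  exact Finset.sum_congr rfl fun j _ => Finset.sum_congr rfl fun i _ => by ring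

theorem exists_one {n : ℕ} {A : Fin n → Fin 3 → K} (hA : Simple A) (hn : 1 ≤ n) {e : Fin 3 → ℕ}
    (hE : HasExp A e) : ∃ j, e j = 1 := by
  obtain ⟨b, hb⟩ := hE
  by_contra hne
  push Not at hne
  let i0 : Fin n := ⟨0, hn⟩
  let θ : LD A := ⟨fun j => X j, fun i => dvd_refl _⟩
  have h3 : (θ : Fin 3 → MvPolynomial (Fin 3) K) =
      ∑ j, b.repr θ j • (b j : Fin 3 → MvPolynomial (Fin 3) K) := by
    conv_lhs => rw [← b.sum_repr θ]
    simp only [Submodule.coe_sum, Submodule.coe_smul]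
  have h4 : lin (A i0) = ∑ j, b.repr θ j * evl (A i0) (b j : Fin 3 → MvPolynomial (Fin 3) K) := by
    rw [← evl_sum, ← h3]
    rfl
  refine lin_ne_zero (hA.1 i0) ?_
  rw [← hc_self (lin_hom (A i0)), h4, map_sum]
  refine Finset.sum_eq_zero fun j _ => ?_
  have hj : (evl (A i0) (b j : Fin 3 → MvPolynomial (Fin 3) K)).IsHomogeneous (e j) :=
    evl_hom (hb j)
  rcases Nat.eq_zero_or_pos (e j) with h5 | h5
  · rw [h5] at hj
    rw [const_zero hj ((b j).2 i0), mul_zero, map_zero]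
  · have h6 := hne j
    exact hc_mul_zero hj (by omega)

theorem hasExp_perm {n : ℕ} {A : Fin n → Fin 3 → K} {e : Fin 3 → ℕ} (hE : HasExp A e)
    (σ : Equiv.Perm (Fin 3)) : HasExp A (fun j => e (σ j)) := by
  obtain ⟨b, hb⟩ := hE
  refine ⟨b.reindex σ.symm, fun j i => ?_⟩
  rw [Basis.reindex_apply, Equiv.symm_symm]
  exact hb (σ j) i

theorem exo (hGRD : S_GRD) : S_EXO := by
  intro K _ n A hA hn hfree
  obtain ⟨e, hE⟩ := hGRD K 3 (Fin n) A hA hfree
  obtain ⟨j, hj⟩ := exists_one hA hn hE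
  have h1 := hasExp_perm hE (Equiv.swap 0 j)
  obtain ⟨x, hx⟩ : ∃ x, x = e (Equiv.swap 0 j 1) := ⟨_, rfl⟩
  obtain ⟨y, hy⟩ : ∃ y, y = e (Equiv.swap 0 j 2) := ⟨_, rfl⟩
  have h2 : (fun t => e (Equiv.swap 0 j t)) = ![1, x, y] := by
    funext t
    fin_cases t
    · show e (Equiv.swap 0 j 0) = 1
      rw [Equiv.swap_apply_left]
      exact hj
    · exact hx.symm
    · exact hy.symm
  rw [h2] at h1
  rcases le_total x y with h | h
  · exact ⟨x, y, h, h1⟩
  · refine ⟨y, x, h, ?_⟩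
    have h3 := hasExp_perm h1 (Equiv.swap 1 2)
    have h4 : (fun t => (![1, x, y] : Fin 3 → ℕ) (Equiv.swap 1 2 t)) = ![1, y, x] := by
      funext t
      fin_cases t <;> rfl
    rwa [h4] at h3

end Pool.Agent.H76.GQ
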